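import Mathlib
import Pool.Agent.Q12.RestrLie.Iso

/-!
# The nilpotence class of a `p`-nilpotent restricted Lie algebra is not determined by `u(L)`

Over every field `K` of characteristic `2` there are 8-dimensional `2`-nilpotent restricted Lie
algebras `L`, `H` with `u(L) ≅ u(H)` as associative `K`-algebras, `L` of class `2` and `H` of
class `3`.
-/

namespace Pool.Agent.Results.MP_26769e_al.ClassNotDetermined

open Q12.RestrLie

universe v

theorem result (K : Type v) [Field K] [CharP K 2] :
    ∃ (L H : Type v) (_ : LieRing L) (_ : LieAlgebra K L) (_ : RestrictedLieAlgebra 2 K L)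
      (_ : LieRing H) (_ : LieAlgebra K H) (_ : RestrictedLieAlgebra 2 K H),
      FiniteDimensional K L ∧ FiniteDimensional K H ∧
      IsPNilpotent 2 K L ∧ IsPNilpotent 2 K H ∧
      Nonempty (RestrictedEnvelopingAlgebra 2 K L ≃ₐ[K] RestrictedEnvelopingAlgebra 2 K H) ∧
      HasClass K L 2 ∧ HasClass K H 3 :=
  ⟨Ex K (0 : K), Ex K (1 : K), inferInstance, inferInstance, inferInstance, inferInstance,
    inferInstance, inferInstance, inferInstance, inferInstance, Ex.isPNilpotent, Ex.isPNilpotent,
    ⟨Ex.equiv 1 0 (by rw [CharTwo.add_self_eq_zero])⟩, Ex.hasClass_two,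
    Ex.hasClass_three one_ne_zero⟩

end Pool.Agent.Results.MP_26769e_al.ClassNotDetermined
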